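import Pool.Agent.Helper13.Proj.PacketD

/-!
# Minimal hyperplane projections of `B_p^n`, `1 < p ≤ 6/5` (MP_705522_gt): definitions

`q = p/(p-1) ≥ 6`.  `μ` is the law of `|Y|`, where `Y` has density `∝ |y|^(q-2) exp(-|y|^q)`,
rescaled so that `E|Y| = 1`.  `ph μ t = E cos(tY)`, `cc q = 2^(1/q)` and
`Lf h = (2/π) ∫_0^∞ (1 - h t)/t² dt`, so that `E|∑ u_i Y_i| = Lf (∏ ph μ (u_i ·))`.
-/

namespace Pool.Agent.Helper28.NO

open MeasureTheory Set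

/-- `Lf h = (∫_0^∞ (1 - h t)/t² dt) / c0`, with `c0 = ∫_0^∞ (1 - cos t)/t² dt` (`= π/2`). -/
noncomputable def Lf (h : ℝ → ℝ) : ℝ :=
  (∫ t in Ioi (0 : ℝ), (1 - h t) / t ^ 2) / Helper13.Proj.c0

/-- Admissible functions: measurable, `|h| ≤ 1`, `(1-h)/t²` integrable on `(0,∞)`. -/
structure Ok (h : ℝ → ℝ) : Prop where
  meas : Measurable h
  abs_le : ∀ t, |h t| ≤ 1
  int : IntegrableOn (fun t => (1 - h t) / t ^ 2) (Ioi 0)

/-- `h` is the cosine transform of the probability measure `ν` with finite first moment. -/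
structure IsLaw (h : ℝ → ℝ) (ν : Measure ℝ) : Prop where
  prob : IsProbabilityMeasure ν
  int : Integrable (fun x : ℝ => x) ν
  eq : ∀ t, h t = ∫ x, Real.cos (t * x) ∂ν

/-- Cosine transform. -/
noncomputable def ph (μ : Measure ℝ) (t : ℝ) : ℝ := ∫ y, Real.cos (t * y) ∂μ

/-- `c = 2^(1/q)`. -/
noncomputable def cc (q : ℝ) : ℝ := (2 : ℝ) ^ (1 / q)

/-- The power mean of order `-q`: `h^(-q) = (a^(-q) + b^(-q))/2`. -/
noncomputable def hm (q a b : ℝ) : ℝ := ((a ^ (-q) + b ^ (-q)) / 2) ^ (-(1 / q))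

/-- The facts about the law `μ` of `|Y|` used in the proof. -/
structure Base (q : ℝ) (μ : Measure ℝ) : Prop where
  q_ge : 6 ≤ q
  prob : IsProbabilityMeasure μ
  pos : ∀ᵐ y ∂μ, 0 < y
  int : Integrable (fun y : ℝ => y) μ
  mean : ∫ y, y ∂μ = 1
  max_eq : ∀ a b : ℝ, 0 ≤ a → 0 ≤ b →
    ∫ p : ℝ × ℝ, max (a * p.1) (b * p.2) ∂(μ.prod μ) = (a ^ q + b ^ q) ^ (1 / q)
  near : ∀ a b ρ : ℝ, 0 < b → b ≤ a → 0 ≤ ρ → ρ ≤ 4 * hm q a b * (cc q - 1) →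
    (hm q a b ^ 2 / (a * b)) ^ (q - 1) * (ρ ^ 2 / (8 * hm q a b * (cc q - 1))) ≤
      ∫ p : ℝ × ℝ, max 0 (ρ - |a * p.1 - b * p.2|) ∂(μ.prod μ)
  four : 8 / 3 * (cc q - 1) ≤
    ∫ p : (ℝ × ℝ) × (ℝ × ℝ), max |p.1.1 - p.1.2| |p.2.1 - p.2.2| ∂((μ.prod μ).prod (μ.prod μ))

/-- central binomial weight `C(2k,k)/4^k`. -/
noncomputable def bb (k : ℕ) : ℝ := (Nat.centralBinom k : ℝ) / 4 ^ k

end Pool.Agent.Helper28.NO
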