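import Pool.Agent.Helper28.NO.Induct
import Pool.Agent.Helper85.Proj.PktE

/-!
# From the abstract theorem to the volumes of projections
-/

namespace Pool.Agent.Helper28.NO

open MeasureTheory Set
open Pool.Agent.Helper7.Proj (Zd phi Bp projVol J)

variable {q : ℝ} {μ : Measure ℝ}

lemma Lf_two (hB : Base q μ) {a b : ℝ} (ha : 0 ≤ a) (hb : 0 ≤ b) :
    Lf (fun t => ph μ (a * t) * ph μ (b * t)) = (a ^ q + b ^ q) ^ (1 / q) := by
  have := hB.prob
  have i1 : Integrable (fun p : ℝ × ℝ => |a * p.1|) (μ.prod μ) :=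
    ((hB.int.comp_fst μ).const_mul a).abs
  have i2 : Integrable (fun p : ℝ × ℝ => |b * p.2|) (μ.prod μ) :=
    ((hB.int.comp_snd μ).const_mul b).abs
  have i3 : Integrable (fun p : ℝ × ℝ => max |a * p.1| |b * p.2|) (μ.prod μ) := i1.sup i2
  have hm := mix (μ.prod μ) (fun p t => Real.cos (a * p.1 * t) * Real.cos (b * p.2 * t))
    (by unfold Function.uncurry; fun_prop) (fun p => ok_cos_cos _ _) (by
      refine i3.congr (Filter.Eventually.of_forall fun p => ?_)
      exact (Lf_cos_cos _ _).symm)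
  have e : (fun t => ph μ (a * t) * ph μ (b * t)) =
      fun t => ∫ p : ℝ × ℝ, Real.cos (a * p.1 * t) * Real.cos (b * p.2 * t) ∂(μ.prod μ) := by
    ext t
    rw [ph, ph, ← integral_prod_mul]
    refine integral_congr_ae (Filter.Eventually.of_forall fun p => ?_)
    simp only
    ring_nf
  rw [e, hm.2, ← hB.max_eq a b ha hb]
  have h1 : ∀ᵐ p : ℝ × ℝ ∂(μ.prod μ), 0 < p.1 :=
    (Measure.quasiMeasurePreserving_fst (μ := μ) (ν := μ)).ae hB.pos
  have h2 : ∀ᵐ p : ℝ × ℝ ∂(μ.prod μ), 0 < p.2 :=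
    (Measure.quasiMeasurePreserving_snd (μ := μ) (ν := μ)).ae hB.pos
  refine integral_congr_ae ?_
  filter_upwards [h1, h2] with p hp1 hp2
  rw [Lf_cos_cos, abs_of_nonneg (by positivity), abs_of_nonneg (by positivity)]

lemma Lf_single (hB : Base q μ) : Lf (fun t => ph μ (1 * t)) = 1 := by
  have := hB.prob
  rw [(isLaw_ph hB.int 1).Lf_eq, integral_map (by fun_prop) (by fun_prop)]
  refine Eq.trans (integral_congr_ae ?_) hB.mean
  filter_upwards [hB.pos] with y hy
  rw [one_mul, abs_of_pos hy]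

/-- the value at the critical directions. -/
lemma Lf_crit (hB : Base q μ) {ι : Type} [Fintype ι] [DecidableEq ι] (u : ι → ℝ) {i j : ι}
    (hij : i ≠ j) (hi : |u i| = 1 / √2) (hj : |u j| = 1 / √2) (h1 : ∑ k, u k ^ 2 = 1) :
    Lf (fun t => ∏ k, ph μ (u k * t)) = cc q / √2 := by
  have := hB.prob
  have hi2 : u i ^ 2 = 1 / 2 := by
    rw [← sq_abs, hi, div_pow, Real.sq_sqrt (by norm_num)]; norm_num
  have hj2 : u j ^ 2 = 1 / 2 := by
    rw [← sq_abs, hj, div_pow, Real.sq_sqrt (by norm_num)]; norm_num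
  have hz : ∀ k, k ≠ i → k ≠ j → u k = 0 := by
    intro k hki hkj
    have h2 : u k ^ 2 + (u i ^ 2 + u j ^ 2) ≤ ∑ k, u k ^ 2 := by
      have : ∑ l ∈ ({k, i, j} : Finset ι), u l ^ 2 ≤ ∑ l, u l ^ 2 :=
        Finset.sum_le_sum_of_subset_of_nonneg (Finset.subset_univ _) (fun _ _ _ => sq_nonneg _)
      rwa [Finset.sum_insert (by simp [hki, hkj]), Finset.sum_pair hij] at this
    have h3 : u k ^ 2 ≤ 0 := by linarith
    exact pow_eq_zero_iff (two_ne_zero) |>.1 (le_antisymm h3 (sq_nonneg _))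
  have e : (fun t => ∏ k, ph μ (u k * t)) =
      fun t => ph μ (1 / √2 * t) * ph μ (1 / √2 * t) := by
    ext t
    rw [← Finset.prod_subset (Finset.subset_univ ({i, j} : Finset ι)), Finset.prod_pair hij,
      ← ph_abs, hi, ← ph_abs (u j), hj]
    intro k _ hk
    simp only [Finset.mem_insert, Finset.mem_singleton, not_or] at hk
    rw [hz k hk.1 hk.2, zero_mul, ph_zero]
  rw [e, Lf_two hB (by positivity) (by positivity), ← two_mul,
    Real.mul_rpow (by norm_num) (by positivity), ← Real.rpow_mul (by positivity),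
    mul_one_div_cancel (by have := hB.q_ge; linarith), Real.rpow_one]
  unfold cc
  ring

/-- The packets about the measure and the geometry. -/
structure Pk2 : Prop where
  P : Pk
  D1 : GD1
  base : ∀ q : ℝ, 6 ≤ q → Base q (mu q)
  E1 : GE1
  D : Pool.Agent.Helper7.Proj.PktD
  E : Pool.Agent.Helper7.Proj.PktE

lemma q_ge_six {p : ℝ} (hp : 1 < p) (hp2 : p ≤ 6 / 5) : 6 ≤ p / (p - 1) := by
  rw [le_div_iff₀ (by linarith)]
  linarith

lemma cc_eq {p : ℝ} (hp : 1 < p) : cc (p / (p - 1)) / √2 = (2 : ℝ) ^ (1 / 2 - 1 / p) := by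
  unfold cc
  rw [Real.sqrt_eq_rpow, ← Real.rpow_sub (by norm_num)]
  congr 1
  have : p - 1 ≠ 0 := by linarith
  have : p ≠ 0 := by linarith
  field_simp
  ring

/-- proportionality of the projection volume and `Lf` -/
lemma projVol_eq (K : Pk2) {p : ℝ} (hp : 1 < p) (hp2 : p ≤ 6 / 5) (n : ℕ) :
    ∀ u : EuclideanSpace ℝ (Fin (n + 1)), ‖u‖ = 1 →
      projVol p (n + 1) u = (volume : Measure (EuclideanSpace ℝ (Fin n))).real (Bp p n) *
        Lf (fun t => ∏ i, ph (mu (p / (p - 1))) (u i * t)) := by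
  obtain ⟨C, hC, hE⟩ := K.E p hp (by linarith) (n + 1) (by omega)
  obtain ⟨C', hC', hD⟩ := K.D p hp (by linarith) (n + 1)
  set q := p / (p - 1) with hq
  have hq6 : 6 ≤ q := q_ge_six hp hp2
  have hB := K.base q hq6
  have hprob := hB.prob
  obtain ⟨hZ, hprobZ, hposZ, hintZ, hmeanZ, hphi⟩ := K.D1 q (by linarith)
  have hqZ : 0 < q * Zd q := by positivity
  -- relation between ph (mu q) and phi q
  have hrel : ∀ t, ph (mu q) t = phi q (q * Zd q * t) := by
    intro t
    rw [hphi, ph, mu, integral_map (by fun_prop) (by fun_prop), ph]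
    refine integral_congr_ae (Filter.Eventually.of_forall fun z => ?_)
    simp only
    ring_nf
  have hphi0 : phi q 0 = 1 := by rw [hphi]; simp [ph]
  -- main formula
  have hV : ∀ u : EuclideanSpace ℝ (Fin (n + 1)), ‖u‖ = 1 → projVol p (n + 1) u =
      (C * C' * Helper13.Proj.c0 / (q * Zd q)) * Lf (fun t => ∏ i, ph (mu q) (u i * t)) := by
    intro u hu
    rw [hE u hu, hD]
    have e : Lf (fun t => ∏ i, ph (mu q) (u i * t)) =
        (q * Zd q) * Lf (fun t => ∏ i, phi q (u i * t)) := by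
      rw [← Lf_scale (fun t => ∏ i, phi q (u i * t)) hqZ.le (by simp [hphi0])]
      congr 1
      ext t
      refine Finset.prod_congr rfl fun i _ => ?_
      rw [hrel]
      ring_nf
    rw [e]
    have hc0 : Helper13.Proj.c0 ≠ 0 := Helper13.Proj.c0_pos.ne'
    have hqZ' := hqZ.ne'
    unfold Lf
    generalize (∫ t in Ioi (0 : ℝ), (1 - ∏ i, phi q (u i * t)) / t ^ 2) = I
    generalize Helper13.Proj.c0 = c at *
    generalize q * Zd q = Z at *
    field_simp
  have hunit : ‖(EuclideanSpace.single (0 : Fin (n + 1)) (1 : ℝ))‖ = 1 := by simp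
  have h1 := hV _ hunit
  have h2 : Lf (fun t => ∏ i, ph (mu q) ((EuclideanSpace.single (0 : Fin (n + 1)) (1 : ℝ)) i * t))
      = 1 := by
    refine Eq.trans ?_ (Lf_single hB)
    congr 1
    ext t
    rw [Finset.prod_eq_single (0 : Fin (n + 1))]
    · simp
    · intro i _ hi
      simp [hi, ph_zero]
    · simp
  rw [h2, mul_one, K.E1 p hp n 0] at h1
  intro u hu
  rw [hV u hu, ← h1]

/-- The final theorem (real valued volumes). -/
theorem final (K : Pk2) {p : ℝ} (hp : 1 < p) (hp2 : p ≤ 6 / 5) (n : ℕ)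
    (u : EuclideanSpace ℝ (Fin (n + 1))) (hu : ‖u‖ = 1) :
    (2 : ℝ) ^ (1 / 2 - 1 / p) * (volume : Measure (EuclideanSpace ℝ (Fin n))).real (Bp p n) ≤
      projVol p (n + 1) u ∧
    (0 < (volume : Measure (EuclideanSpace ℝ (Fin n))).real (Bp p n) →
     (projVol p (n + 1) u = (2 : ℝ) ^ (1 / 2 - 1 / p) *
      (volume : Measure (EuclideanSpace ℝ (Fin n))).real (Bp p n) ↔
      ∃ i j, i ≠ j ∧ |u i| = 1 / √2 ∧ |u j| = 1 / √2)) := by
  have hB := K.base (p / (p - 1)) (q_ge_six hp hp2)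
  have hM := goalM K.P _ _ hB (Fin (n + 1)) Finset.univ (fun i => u i)
  have h1 : ∑ i, u i ^ 2 = 1 := by
    have := EuclideanSpace.real_norm_sq_eq u
    rw [hu] at this
    simpa using this.symm
  rw [h1, Real.sqrt_one, mul_one, cc_eq hp] at hM
  have hV := projVol_eq K hp hp2 n u hu
  set V := (volume : Measure (EuclideanSpace ℝ (Fin n))).real (Bp p n) with hVd
  have hV0 : 0 ≤ V := measureReal_nonneg
  rw [hV]
  refine ⟨?_, fun hpos => ⟨fun h => ?_, fun ⟨i, j, hij, hi, hj⟩ => ?_⟩⟩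
  · rw [mul_comm]
    exact mul_le_mul_of_nonneg_left hM.1 hV0
  · rw [mul_comm] at h
    have h2 := mul_right_cancel₀ hpos.ne' h
    obtain ⟨i, _, j, _, hij, hi, hj⟩ := hM.2 rfl h2
    exact ⟨i, j, hij, hi, hj⟩
  · rw [Lf_crit hB (fun i => u i) hij hi hj h1, cc_eq hp, mul_comm]

end Pool.Agent.Helper28.NO
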