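import Pool.Agent.Helper28.NO.Tool
import Pool.Agent.Helper7.Proj.Packets

/-!
# Goals (exact statements of the packets)
-/

namespace Pool.Agent.Helper28.NO

open MeasureTheory Set
open Pool.Agent.Helper7.Proj (Zd phi Bp projVol)

/-! ### Trigonometric moments -/

/-- J1: expansion of `cos^(2n)`. -/
def GExp : Prop := ∀ (n : ℕ) (t : ℝ), Real.cos t ^ (2 * n) =
  (∑ j ∈ Finset.range (2 * n + 1),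
    ((2 * n).choose j : ℝ) * Real.cos ((2 * (n : ℝ) - 2 * (j : ℝ)) * t)) / 4 ^ n

/-- J2: `E|ε₁ + ⋯ + ε_{2n}| = 2n C(2n,n)/4^n`. -/
def GJ : Prop := ∀ n : ℕ, Lf (fun t => Real.cos t ^ (2 * n)) = 2 * n * bb n

/-- I: lower bounds for `I(2k) = E|Y₁ + ⋯ + Y_{2k}|` (`k = m + 2`), and `I(2) = c`. -/
def GI : Prop := ∀ (q : ℝ) (μ : Measure ℝ), Base q μ →
  Lf (fun t => ph μ t ^ 2) = cc q ∧
  ∀ m : ℕ, bb (m + 1) * (2 * (m : ℝ) + 1 + 2 * cc q) ≤ Lf (fun t => ph μ t ^ (2 * (m + 2)))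

/-- W: the numerical lower bounds (`k = m + 2`). -/
def GW : Prop := ∀ c : ℝ, c ≤ 1.1225 → ∀ m : ℕ,
  (c / √2 + 0.00377) * ((4 * ((m : ℝ) + 2) + 1) / (2 * √(2 * ((m : ℝ) + 2) + 1))) ≤
    bb (m + 1) * (2 * (m : ℝ) + 1 + 2 * c) ∧
  (c / √2 + 0.00377) * ((4 * ((m : ℝ) + 3) - 1) / (2 * √(2 * ((m : ℝ) + 3) - 1))) ≤
    bb (m + 2) * (2 * ((m : ℝ) + 1) + 1 + 2 * c)

/-! ### AM-GM -/

/-- AG: weighted AM-GM followed by the convexity of `s ↦ |φ|^s` between even integers. -/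
def GAG : Prop := ∀ (μ : Measure ℝ), IsProbabilityMeasure μ → Integrable (fun y : ℝ => y) μ →
  ∀ (ι : Type) (S : Finset ι) (u lam : ι → ℝ) (f T : ℝ → ℝ),
  Measurable T → (∀ t, |f t| ≤ T t) → (∀ t, T t ≤ 1) → Ok f →
  Ok (fun t => f t * ∏ i ∈ S, ph μ (u i * t)) →
  (∀ i ∈ S, 0 < u i) → (∀ i ∈ S, 0 < lam i ∧ lam i ≤ 1 / 2) → ∑ i ∈ S, lam i = 1 →
  ∑ i ∈ S, lam i *
    ((1 - (1 / (2 * lam i) - ⌊1 / (2 * lam i)⌋₊)) *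
        Lf (fun t => T t * ph μ (u i * t) ^ (2 * ⌊1 / (2 * lam i)⌋₊)) +
      (1 / (2 * lam i) - ⌊1 / (2 * lam i)⌋₊) *
        Lf (fun t => T t * ph μ (u i * t) ^ (2 * ⌊1 / (2 * lam i)⌋₊ + 2)))
    ≤ Lf (fun t => f t * ∏ i ∈ S, ph μ (u i * t))

/-- `TT θ ≥ |cos θ|`, partial sum of `√(1-w)`, `w = sin² θ`. -/
noncomputable def TT (θ : ℝ) : ℝ :=
  1 - Real.sin θ ^ 2 / 2 - Real.sin θ ^ 4 / 8 - Real.sin θ ^ 6 / 16 - 5 * Real.sin θ ^ 8 / 128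

/-- T: -/
def GT : Prop := (∀ θ, |Real.cos θ| ≤ TT θ ∧ TT θ ≤ 1) ∧
  ∀ (h : ℝ → ℝ) (ν : Measure ℝ), IsLaw h ν → ∀ a : ℝ, 0 ≤ a →
    Ok (fun t => TT (a * t) * h t) ∧
    1225 / 2048 * a + 11025 / 16384 * Lf h ≤ Lf (fun t => TT (a * t) * h t)

/-! ### Two large coordinates -/

/-- B: lower bounds for `V = E|aY₁ + bY₂ + R|`, `R` with law `ν` and `E|R| ≥ ρ`. -/
def GB : Prop := ∀ (q : ℝ) (μ : Measure ℝ), Base q μ → ∀ (h : ℝ → ℝ) (ν : Measure ℝ),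
  IsLaw h ν → ∀ a b ρ : ℝ, 0 < b → b ≤ a → 0 ≤ ρ → ρ ≤ Lf h →
  (a ^ q + b ^ q) ^ (1 / q) ≤ Lf (fun t => ph μ (a * t) * (ph μ (b * t) * h t)) ∧
  (a + b + ρ) / 2 ≤ Lf (fun t => ph μ (a * t) * (ph μ (b * t) * h t)) ∧
  ((cc q + 2) * a + cc q * b + ρ) / 4 ≤ Lf (fun t => ph μ (a * t) * (ph μ (b * t) * h t)) ∧
  (ρ ≤ 4 * hm q a b * (cc q - 1) →
    (a ^ q + b ^ q) ^ (1 / q) + 1 / 2 * ((hm q a b ^ 2 / (a * b)) ^ (q - 1) *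
      (ρ ^ 2 / (8 * hm q a b * (cc q - 1)))) ≤
    Lf (fun t => ph μ (a * t) * (ph μ (b * t) * h t)))

/-! ### Real inequalities -/

/-- R1: near the critical direction. -/
def GR1 : Prop := ∀ q a b r : ℝ, 6 ≤ q → 0 < b → b ≤ a → 0 ≤ r → a ^ 2 + b ^ 2 + r ^ 2 = 1 →
  r ≤ 2.6 * (cc q - 1) → ¬ (r = 0 ∧ a = b) →
  cc q / √2 < (a ^ q + b ^ q) ^ (1 / q) ∨
  (cc q / √2 * r ≤ 4 * hm q a b * (cc q - 1) ∧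
    cc q / √2 < (a ^ q + b ^ q) ^ (1 / q) + 1 / 2 * ((hm q a b ^ 2 / (a * b)) ^ (q - 1) *
      ((cc q / √2 * r) ^ 2 / (8 * hm q a b * (cc q - 1)))))

/-- R2: two large coordinates, `r` not small. -/
def GR2 : Prop := ∀ c a b r : ℝ, 1 < c → c ≤ 1.1225 → 0 < b → b ≤ a → a ≤ c / √2 →
  a ^ 2 + b ^ 2 + r ^ 2 = 1 → 2.6 * (c - 1) ≤ r →
  (1 / 2 ≤ a ^ 2 ∧ r ^ 2 ≤ b ^ 2) ∨ (a ^ 2 ≤ 1 / 2 ∧ 0.3 ≤ a ^ 2 ∧ 0.28 ≤ b ^ 2) →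
  2 * (c / √2) < a + b + c / √2 * r ∨ 4 * (c / √2) < (c + 2) * a + c * b + c / √2 * r

/-- R3: one coordinate with `u² ∈ [0.3, 0.5]`, all other `u² ≤ 0.28`. -/
def GR3 : Prop := ∀ c a : ℝ, 1 < c → c ≤ 1.1225 → 0 ≤ a → 0.3 ≤ a ^ 2 → a ^ 2 ≤ 0.5 →
  c / √2 < (c - 1 / 2) * a ^ 3 + a / 4 + (1 - a ^ 2) * (c / √2 + 0.00377)

/-- R4: one coordinate with `u² ≥ 1/2`, all others small. -/
def GR4 : Prop := ∀ c a : ℝ, 1 < c → c ≤ 1.1225 → 0 ≤ a → 1 / 2 ≤ a ^ 2 → a ≤ c / √2 →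
  c / √2 < 1225 / 2048 * a + 11025 / 16384 * (√(1 - a ^ 2) * √(c - 1 / 2))

/-- R5: the interpolation bound on `[10/3, 4]`. -/
def GR5 : Prop := ∀ c s : ℝ, 1 < c → c ≤ 1.1225 → 10 / 3 ≤ s → s ≤ 4 →
  (c / √2) * √s < c - 1 / 2 + s / 4 ∧
  (1 / 0.28 ≤ s → (c / √2 + 0.00377) * √s ≤ c - 1 / 2 + s / 4)

/-! ### The measure -/

/-- law of `|Z|`, density `z^(q-2) exp(-z^q)/Zd`. -/
noncomputable def muZ (q : ℝ) : Measure ℝ :=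
  (volume.restrict (Ioi (0 : ℝ))).withDensity
    (fun z => ENNReal.ofReal (z ^ (q - 2) * Real.exp (-z ^ q) / Zd q))

/-- law of `|Y| = |Z| / E|Z|`, `E|Z| = 1/(q Zd)`. -/
noncomputable def mu (q : ℝ) : Measure ℝ := (muZ q).map (fun z => q * Zd q * z)

/-- D1. -/
def GD1 : Prop := ∀ q : ℝ, 2 < q → 0 < Zd q ∧ IsProbabilityMeasure (muZ q) ∧
  (∀ᵐ z ∂(muZ q), 0 < z) ∧ Integrable (fun z : ℝ => z) (muZ q) ∧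
  ∫ z, z ∂(muZ q) = 1 / (q * Zd q) ∧ (∀ t, phi q t = ph (muZ q) t)

/-- D2. -/
def GD2 : Prop := ∀ q : ℝ, 2 < q → ∀ a b : ℝ, 0 ≤ a → 0 ≤ b →
  ∫ p : ℝ × ℝ, max (a * p.1) (b * p.2) ∂((muZ q).prod (muZ q)) =
    (a ^ q + b ^ q) ^ (1 / q) / (q * Zd q)

/-- D3a. -/
def GD3a : Prop := ∀ q : ℝ, 2 < q → ∀ a b ρ : ℝ, 0 < a → 0 < b → 0 ≤ ρ →
  (hm q a b ^ 2 / (a * b)) ^ (q - 1) *
    ∫ p : ℝ × ℝ, max 0 (ρ - hm q a b * |p.1 - p.2|) ∂((muZ q).prod (muZ q)) ≤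
    ∫ p : ℝ × ℝ, max 0 (ρ - |a * p.1 - b * p.2|) ∂((muZ q).prod (muZ q))

/-- D3b: comparison with uniform variables: the density of `|Z₁ - Z₂|` is decreasing. -/
def GD3b : Prop := ∀ q : ℝ, 2 < q → ∀ (β : ℝ → ℝ) (K : ℝ), Continuous β →
  (∀ w, |β w| ≤ K * (1 + |w|)) → (∀ L : ℝ, 0 ≤ L → 0 ≤ ∫ w in (0 : ℝ)..L, β w) →
  0 ≤ ∫ p : ℝ × ℝ, β |p.1 - p.2| ∂((muZ q).prod (muZ q))

/-- D4. -/
def GD4 : Prop := GD1 → GD2 → GD3a → GD3b → ∀ q : ℝ, 6 ≤ q → Base q (mu q)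

/-! ### Geometry -/

/-- E1: the projection of `B_p^(n+1)` along a coordinate axis is `B_p^n`. -/
def GE1 : Prop := ∀ (p : ℝ), 1 < p → ∀ (n : ℕ) (i : Fin (n + 1)),
  projVol p (n + 1) (EuclideanSpace.single i 1) =
    (volume : Measure (EuclideanSpace ℝ (Fin n))).real (Bp p n)

/-! ### The abstract theorem -/

/-- M: -/
def GM : Prop := ∀ (q : ℝ) (μ : Measure ℝ), Base q μ → ∀ (ι : Type) (S : Finset ι) (u : ι → ℝ),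
  cc q / √2 * √(∑ i ∈ S, u i ^ 2) ≤ Lf (fun t => ∏ i ∈ S, ph μ (u i * t)) ∧
  (∑ i ∈ S, u i ^ 2 = 1 → Lf (fun t => ∏ i ∈ S, ph μ (u i * t)) = cc q / √2 →
    ∃ i ∈ S, ∃ j ∈ S, i ≠ j ∧ |u i| = 1 / √2 ∧ |u j| = 1 / √2)

end Pool.Agent.Helper28.NO
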