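import Pool.Agent.Helper28.NO.Main

/-!
# The induction
-/

namespace Pool.Agent.Helper28.NO

open MeasureTheory Set

variable {q : ℝ} {μ : Measure ℝ}

/-- All packets together. -/
structure Pk : Prop where
  I : GI
  W : GW
  AG : GAG
  T : GT
  B : GB
  R1 : GR1
  R2 : GR2
  R3 : GR3
  R4 : GR4
  R5 : GR5

/-- the term of one small coordinate -/
lemma term_small (P : Pk) (hB : Base q μ) {u : ℝ} (hu : 0 < u) (h : u ^ 2 ≤ 0.28) :
    cc q / √2 + 0.00377 ≤ u * Iz μ (1 / (2 * u ^ 2)) := by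
  have hc := cc_le hB.q_ge
  have hc1 := cc_gt hB.q_ge
  have hz3 : √(2 * (1 / (2 * u ^ 2))) = 1 / u := by
    rw [Real.sqrt_eq_iff_mul_self_eq (by positivity) (by positivity)]
    field_simp
  have key : (cc q / √2 + 0.00377) * √(2 * (1 / (2 * u ^ 2))) ≤ Iz μ (1 / (2 * u ^ 2)) := by
    rcases le_total (u ^ 2) (1 / 4) with h4 | h4
    · refine Iz_large P.I P.W hB ?_
      rw [le_div_iff₀ (by positivity)]
      linarith
    · have hz1 : 1 ≤ 1 / (2 * u ^ 2) := by rw [le_div_iff₀ (by positivity)]; linarith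
      have hz2 : 1 / (2 * u ^ 2) ≤ 2 := by rw [div_le_iff₀ (by positivity)]; linarith
      have e := Iz_small P.I hB hz1 hz2
      have s1 : 1 / 0.28 ≤ 2 * (1 / (2 * u ^ 2)) := by
        rw [show 2 * (1 / (2 * u ^ 2)) = 1 / u ^ 2 by field_simp]
        exact one_div_le_one_div_of_le (by positivity) h
      have := (P.R5 (cc q) (2 * (1 / (2 * u ^ 2))) hc1 hc (by norm_num at s1 ⊢; linarith)
        (by linarith)).2 s1
      linarith
  rw [hz3] at key
  calc cc q / √2 + 0.00377 = u * ((cc q / √2 + 0.00377) * (1 / u)) := by field_simp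
    _ ≤ _ := mul_le_mul_of_nonneg_left key hu.le

lemma term_mid (P : Pk) (hB : Base q μ) {u : ℝ} (hu : 0 < u) (h : u ^ 2 ≤ 0.3) :
    cc q / √2 < u * Iz μ (1 / (2 * u ^ 2)) := by
  have hc := cc_le hB.q_ge
  have hc1 := cc_gt hB.q_ge
  rcases le_total (u ^ 2) 0.28 with h28 | h28
  · have := term_small P hB hu h28
    linarith
  · have hz3 : √(2 * (1 / (2 * u ^ 2))) = 1 / u := by
      rw [Real.sqrt_eq_iff_mul_self_eq (by positivity) (by positivity)]
      field_simp
    have hz1 : 1 ≤ 1 / (2 * u ^ 2) := by rw [le_div_iff₀ (by positivity)]; linarith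
    have hz2 : 1 / (2 * u ^ 2) ≤ 2 := by rw [div_le_iff₀ (by positivity)]; linarith
    have e := Iz_small P.I hB hz1 hz2
    have s1 : 10 / 3 ≤ 2 * (1 / (2 * u ^ 2)) := by
      rw [show 2 * (1 / (2 * u ^ 2)) = 1 / u ^ 2 by field_simp, le_div_iff₀ (by positivity)]
      linarith
    have := (P.R5 (cc q) (2 * (1 / (2 * u ^ 2))) hc1 hc s1 (by linarith)).1
    rw [hz3] at this
    have key : cc q / √2 * (1 / u) < Iz μ (1 / (2 * u ^ 2)) := by linarith
    calc cc q / √2 = u * (cc q / √2 * (1 / u)) := by field_simp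
      _ < _ := mul_lt_mul_of_pos_left key hu

/-- the main step, nonzero coordinates, unit vector -/
lemma key (P : Pk) (hB : Base q μ) {ι : Type} [DecidableEq ι] (S : Finset ι) (u : ι → ℝ)
    (hu : ∀ i ∈ S, 0 < u i) (h1 : ∑ i ∈ S, u i ^ 2 = 1)
    (ih : ∀ S' : Finset ι, S' ⊂ S →
      cc q / √2 * √(∑ i ∈ S', u i ^ 2) ≤ Lf (fun t => ∏ i ∈ S', ph μ (u i * t))) :
    cc q / √2 < Lf (fun t => ∏ i ∈ S, ph μ (u i * t)) ∨
    (cc q / √2 ≤ Lf (fun t => ∏ i ∈ S, ph μ (u i * t)) ∧
      ∃ i ∈ S, ∃ j ∈ S, i ≠ j ∧ u i = 1 / √2 ∧ u j = 1 / √2) := by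
  have hc := cc_le hB.q_ge
  have hc1 := cc_gt hB.q_ge
  have hprob := hB.prob
  set c := cc q with hcdef
  set tt := c / √2 with htt
  have ht1 : tt < 1 := t_lt_one hc
  have ht0 : 0 < tt := t_pos hc1
  have htsq : tt ^ 2 = c ^ 2 / 2 := t_sq c
  have hne : S.Nonempty := by
    by_contra h
    rw [Finset.not_nonempty_iff_eq_empty] at h
    rw [h] at h1
    simp at h1
  obtain ⟨i, hi, hmax⟩ := S.exists_max_image u hne
  set a := u i with ha
  have ha0 : 0 < a := hu i hi
  have hsplit : ∑ k ∈ S, u k ^ 2 = a ^ 2 + ∑ k ∈ S.erase i, u k ^ 2 :=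
    (Finset.add_sum_erase S _ hi).symm
  have hprod : (fun t => ∏ k ∈ S, ph μ (u k * t)) =
      fun t => ph μ (a * t) * ∏ k ∈ S.erase i, ph μ (u k * t) := by
    ext t
    exact (Finset.mul_prod_erase S (fun k => ph μ (u k * t)) hi).symm
  obtain ⟨ν1, hν1⟩ := exists_isLaw_prod hB.int (S.erase i) u
  -- the case of a large coordinate
  rcases lt_or_ge tt a with hat | hat
  · left
    rw [hprod]
    have e1 := jensen hB hν1 ha0.le
    have e2 := hν1.le_Lf_cos a
    rw [abs_of_pos ha0] at e2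
    have := le_max_left a (Lf (fun t => ∏ k ∈ S.erase i, ph μ (u k * t)))
    linarith
  have ha1 : a < 1 := lt_of_le_of_lt hat ht1
  have hrest : ∑ k ∈ S.erase i, u k ^ 2 = 1 - a ^ 2 := by linarith
  have ha2 : a ^ 2 < 1 := by nlinarith
  have hne2 : (S.erase i).Nonempty := by
    by_contra h
    rw [Finset.not_nonempty_iff_eq_empty] at h
    rw [h] at hrest
    simp at hrest
    linarith
  obtain ⟨j, hj, hmaxj⟩ := (S.erase i).exists_max_image u hne2
  have hji : j ≠ i := Finset.ne_of_mem_erase hj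
  have hjS : j ∈ S := Finset.mem_of_mem_erase hj
  set b := u j with hb
  have hb0 : 0 < b := hu j hjS
  have hba : b ≤ a := hmax j hjS
  set S2 := (S.erase i).erase j with hS2
  have hsplit2 : ∑ k ∈ S.erase i, u k ^ 2 = b ^ 2 + ∑ k ∈ S2, u k ^ 2 :=
    (Finset.add_sum_erase (S.erase i) _ hj).symm
  have hprod2 : (fun t => ∏ k ∈ S, ph μ (u k * t)) =
      fun t => ph μ (a * t) * (ph μ (b * t) * ∏ k ∈ S2, ph μ (u k * t)) := by
    rw [hprod]
    ext t
    rw [← Finset.mul_prod_erase (S.erase i) (fun k => ph μ (u k * t)) hj]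
  obtain ⟨ν2, hν2⟩ := exists_isLaw_prod hB.int S2 u
  set r := √(∑ k ∈ S2, u k ^ 2) with hr
  have hr0 : 0 ≤ r := Real.sqrt_nonneg _
  have hrr : r ^ 2 = ∑ k ∈ S2, u k ^ 2 :=
    Real.sq_sqrt (Finset.sum_nonneg fun k _ => sq_nonneg _)
  have hnorm : a ^ 2 + b ^ 2 + r ^ 2 = 1 := by linarith
  have hS2S : S2 ⊂ S := by
    refine (Finset.erase_ssubset hj).trans_subset (Finset.erase_subset _ _)
  have hρ : tt * r ≤ Lf (fun t => ∏ k ∈ S2, ph μ (u k * t)) := ih S2 hS2S
  have hGB := P.B q μ hB _ ν2 hν2 a b (tt * r) hb0 hba (by positivity) hρ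
  rw [← hcdef] at hGB
  -- the two-large case
  have two : ((1 / 2 ≤ a ^ 2 ∧ r ^ 2 ≤ b ^ 2) ∨ (a ^ 2 ≤ 1 / 2 ∧ 0.3 ≤ a ^ 2 ∧ 0.28 ≤ b ^ 2)) →
      tt < Lf (fun t => ∏ k ∈ S, ph μ (u k * t)) ∨
    (tt ≤ Lf (fun t => ∏ k ∈ S, ph μ (u k * t)) ∧
      ∃ i ∈ S, ∃ j ∈ S, i ≠ j ∧ u i = 1 / √2 ∧ u j = 1 / √2) := by
    intro hreg
    rw [hprod2]
    rcases le_total r (2.6 * (c - 1)) with hrs | hrs
    · by_cases hcrit : r = 0 ∧ a = b
      · right
        obtain ⟨hr', hab⟩ := hcrit
        have ha' : a ^ 2 = 1 / 2 := by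
          rw [hr', ← hab] at hnorm
          linarith
        have ha'' : a = 1 / √2 := by
          have : a = √(1 / 2) := by
            rw [eq_comm, Real.sqrt_eq_iff_mul_self_eq (by norm_num) ha0.le]
            linarith
          rw [this, Real.sqrt_div (by norm_num), Real.sqrt_one]
        refine ⟨?_, i, hi, j, hjS, hji.symm, ha'', by rw [← hb, ← hab]; exact ha''⟩
        have e0 := hGB.1
        rw [← hab] at e0 ⊢
        have hq : 0 < q := by have := hB.q_ge; linarith
        have e1 : (a ^ q + a ^ q) ^ (1 / q) = c * a := by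
          rw [← two_mul, Real.mul_rpow (by norm_num) (by positivity), ← Real.rpow_mul ha0.le,
            mul_one_div_cancel hq.ne', Real.rpow_one]
          rfl
        rw [e1, ha''] at e0
        rw [ha'']
        calc tt = c * (1 / √2) := by rw [htt]; ring
          _ ≤ _ := e0
      · left
        rcases P.R1 q a b r hB.q_ge hb0 hba hr0 hnorm hrs hcrit with h | ⟨hv, h⟩
        · exact lt_of_lt_of_le h hGB.1
        · exact lt_of_lt_of_le h (hGB.2.2.2 hv)
    · left
      rcases P.R2 c a b r hc1 hc hb0 hba hat hnorm hrs hreg with h | h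
      · have := hGB.2.1
        linarith
      · have := hGB.2.2.1
        linarith
  have hmax' : ∀ k ∈ S.erase i, u k ^ 2 ≤ b ^ 2 := by
    intro k hk
    have h3 := hmaxj k hk
    have h4 := hu k (Finset.mem_of_mem_erase hk)
    exact pow_le_pow_left₀ h4.le h3 2
  have hmaxa : ∀ k ∈ S, u k ^ 2 ≤ a ^ 2 := by
    intro k hk
    exact pow_le_pow_left₀ (hu k hk).le (hmax k hk) 2
  rcases le_total (a ^ 2) (1 / 2) with hA | hA
  · rcases le_total (a ^ 2) 0.3 with hA3 | hA3
    · -- all coordinates small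
      left
      have e := amgm_one P.AG hB S u hu h1 (fun k hk => (hmaxa k hk).trans hA)
      refine lt_of_lt_of_le ?_ e
      calc tt = ∑ k ∈ S, u k ^ 2 * tt := by rw [← Finset.sum_mul, h1, one_mul]
        _ < _ := by
          refine Finset.sum_lt_sum_of_nonempty hne fun k hk => ?_
          have := hu k hk
          exact mul_lt_mul_of_pos_left (term_mid P hB this ((hmaxa k hk).trans hA3)) (by positivity)
    · rcases le_total (b ^ 2) 0.28 with hB3 | hB3
      · left
        have e := amgm_one P.AG hB S u hu h1 (fun k hk => (hmaxa k hk).trans hA)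
        refine lt_of_lt_of_le ?_ e
        rw [← Finset.add_sum_erase S _ hi]
        have r3 := P.R3 c a hc1 hc ha0.le hA3 (by linarith)
        have e1 : (c - 1 / 2) * a ^ 3 + a / 4 ≤ a ^ 2 * (a * Iz μ (1 / (2 * a ^ 2))) := by
          have hz1 : 1 ≤ 1 / (2 * a ^ 2) := by rw [le_div_iff₀ (by positivity)]; linarith
          have hz2 : 1 / (2 * a ^ 2) ≤ 2 := by
            rw [div_le_iff₀ (by positivity)]; norm_num at hA3; linarith
          have e := Iz_small P.I hB hz1 hz2
          rw [← hcdef] at e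
          calc (c - 1 / 2) * a ^ 3 + a / 4 = a ^ 2 * (a * (c - 1 / 2 + 1 / (2 * a ^ 2) / 2)) := by
                field_simp
                ring
            _ ≤ _ := by
              apply mul_le_mul_of_nonneg_left _ (by positivity)
              exact mul_le_mul_of_nonneg_left e ha0.le
        have e2 : (1 - a ^ 2) * (tt + 0.00377) ≤
            ∑ k ∈ S.erase i, u k ^ 2 * (u k * Iz μ (1 / (2 * u k ^ 2))) := by
          rw [← hrest, Finset.sum_mul]
          refine Finset.sum_le_sum fun k hk => ?_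
          apply mul_le_mul_of_nonneg_left _ (sq_nonneg _)
          exact term_small P hB (hu k (Finset.mem_of_mem_erase hk)) ((hmax' k hk).trans hB3)
        linarith
      · exact two (Or.inr ⟨hA, hA3, hB3⟩)
  · rcases le_total (b ^ 2) ((1 - a ^ 2) / 2) with hbv | hbv
    · left
      set v := √(1 - a ^ 2) with hv
      have hv0 : 0 < v := Real.sqrt_pos.2 (by linarith)
      have hvv : v ^ 2 = 1 - a ^ 2 := Real.sq_sqrt (by linarith)
      have e := amgm_cos P.AG P.T P.I P.W hB (S.erase i) u ha0.le hv0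
        (fun k hk => hu k (Finset.mem_of_mem_erase hk)) (by rw [hvv]; exact hrest)
        (fun k hk => (hmax' k hk).trans (by rw [hvv]; exact hbv))
      have e1 := jensen hB hν1 ha0.le
      have r4 := P.R4 c a hc1 hc ha0.le hA hat
      rw [hprod]
      rw [← hcdef] at e
      linarith
    · exact two (Or.inl ⟨hA, by linarith⟩)

/-- The abstract theorem for positive coordinates by induction. -/
lemma ineq (P : Pk) (hB : Base q μ) {ι : Type} [DecidableEq ι] (S : Finset ι) (u : ι → ℝ)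
    (hu : ∀ i ∈ S, 0 < u i) :
    cc q / √2 * √(∑ i ∈ S, u i ^ 2) ≤ Lf (fun t => ∏ i ∈ S, ph μ (u i * t)) := by
  have hprob := hB.prob
  induction S using Finset.strongInduction generalizing u with
  | H S ih =>
    rcases S.eq_empty_or_nonempty with h | hne
    · subst h
      simp [Lf_one]
    · set σ := √(∑ i ∈ S, u i ^ 2) with hσ
      have hpos : 0 < ∑ i ∈ S, u i ^ 2 :=
        Finset.sum_pos (fun i hi => by have := hu i hi; positivity) hne
      have hσ0 : 0 < σ := Real.sqrt_pos.2 hpos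
      have hσ2 : σ ^ 2 = ∑ i ∈ S, u i ^ 2 := Real.sq_sqrt hpos.le
      have hk := key P hB S (fun i => u i / σ) (fun i hi => div_pos (hu i hi) hσ0)
        (by simp_rw [div_pow]; rw [← Finset.sum_div, hσ2]; field_simp)
        (fun S' hS' => ih S' hS' (fun i => u i / σ)
          (fun i hi => div_pos (hu i (hS'.1 hi)) hσ0))
      have hk2 : cc q / √2 ≤ Lf (fun t => ∏ i ∈ S, ph μ (u i / σ * t)) := by
        rcases hk with h | h
        · exact h.le
        · exact h.1
      have e : Lf (fun t => ∏ i ∈ S, ph μ (u i * t)) =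
          σ * Lf (fun t => ∏ i ∈ S, ph μ (u i / σ * t)) := by
        rw [← Lf_scale (fun t => ∏ i ∈ S, ph μ (u i / σ * t)) hσ0.le (by simp [ph_zero])]
        congr 1
        ext t
        refine Finset.prod_congr rfl fun i _ => ?_
        congr 1
        field_simp
      rw [e, mul_comm]
      exact mul_le_mul_of_nonneg_left hk2 hσ0.le

theorem goalM (P : Pk) : GM := by
  intro q μ hB ι S u
  classical
  have hprob := hB.prob
  have e1 : (fun t => ∏ i ∈ S, ph μ (u i * t)) =
      fun t => ∏ i ∈ S.filter (fun i => u i ≠ 0), ph μ (|u i| * t) := by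
    ext t
    rw [Finset.prod_filter_of_ne]
    · exact Finset.prod_congr rfl fun i _ => (ph_abs _ _).symm
    · intro i _ hi h0
      apply hi
      rw [h0]
      simp [ph_zero]
  have e2 : ∑ i ∈ S, u i ^ 2 = ∑ i ∈ S.filter (fun i => u i ≠ 0), |u i| ^ 2 := by
    rw [Finset.sum_filter_of_ne]
    · exact Finset.sum_congr rfl fun i _ => (sq_abs _).symm
    · intro i _ hi h0
      apply hi
      rw [h0]
      simp
  rw [e1, e2]
  set S' := S.filter (fun i => u i ≠ 0) with hS'
  have hu : ∀ i ∈ S', 0 < |u i| := by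
    intro i hi
    exact abs_pos.2 (Finset.mem_filter.1 hi).2
  refine ⟨ineq P hB S' _ hu, fun h1 h2 => ?_⟩
  rcases key P hB S' _ hu h1 (fun T hT => ineq P hB T _ (fun i hi => hu i (hT.1 hi))) with h | h
  · exact absurd h2 h.ne'
  · obtain ⟨_, i, hi, j, hj, hij, h3, h4⟩ := h
    exact ⟨i, (Finset.mem_filter.1 hi).1, j, (Finset.mem_filter.1 hj).1, hij, h3, h4⟩

end Pool.Agent.Helper28.NO
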