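import Pool.Agent.Helper28.NO.Goals

/-!
# The abstract theorem from the packets
-/

namespace Pool.Agent.Helper28.NO

open MeasureTheory Set

/-! ### Constants -/

lemma cc_gt {q : ℝ} (hq : 6 ≤ q) : 1 < cc q := by
  unfold cc
  exact Real.one_lt_rpow (by norm_num) (by positivity)

lemma cc_le {q : ℝ} (hq : 6 ≤ q) : cc q ≤ 1.1225 := by
  unfold cc
  have h1 : (2 : ℝ) ^ (1 / q) ≤ (2 : ℝ) ^ ((1 : ℝ) / 6) := by
    apply Real.rpow_le_rpow_of_exponent_le (by norm_num)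
    apply one_div_le_one_div_of_le (by norm_num) hq
  have h2 : (2 : ℝ) ^ ((1 : ℝ) / 6) ≤ 1.1225 := by
    have : (2 : ℝ) ≤ (1.1225 : ℝ) ^ (6 : ℝ) := by
      rw [show (6 : ℝ) = ((6 : ℕ) : ℝ) by norm_num, Real.rpow_natCast]
      norm_num
    calc (2 : ℝ) ^ ((1 : ℝ) / 6) ≤ ((1.1225 : ℝ) ^ (6 : ℝ)) ^ ((1 : ℝ) / 6) :=
          Real.rpow_le_rpow (by norm_num) this (by norm_num)
      _ = 1.1225 := by
          rw [← Real.rpow_mul (by norm_num)]
          norm_num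
  exact h1.trans h2

lemma sqrt2_pos : (0 : ℝ) < √2 := by positivity
lemma sqrt2_sq : √2 * √2 = (2 : ℝ) := Real.mul_self_sqrt (by norm_num)
lemma sqrt2_lb : (1.414 : ℝ) < √2 := by
  rw [Real.lt_sqrt (by norm_num)]; norm_num
lemma sqrt2_ub : √2 < (1.4143 : ℝ) := by
  rw [Real.sqrt_lt' (by norm_num)]; norm_num

lemma t_sq (c : ℝ) : (c / √2) ^ 2 = c ^ 2 / 2 := by
  rw [div_pow, Real.sq_sqrt (by norm_num)]

lemma t_lt_one {c : ℝ} (hc : c ≤ 1.1225) : c / √2 < 1 := by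
  rw [div_lt_one sqrt2_pos]
  linarith [sqrt2_lb]

lemma t_pos {c : ℝ} (hc : 1 < c) : 0 < c / √2 := by positivity

/-! ### Interpolated moments -/

/-- `I(n) = Lf(φ^n)`. -/
noncomputable def In (μ : Measure ℝ) (n : ℕ) : ℝ := Lf (fun t => ph μ t ^ n)

/-- interpolation between even integers, `z = s/2`. -/
noncomputable def Iz (μ : Measure ℝ) (z : ℝ) : ℝ :=
  (1 - (z - ⌊z⌋₊)) * In μ (2 * ⌊z⌋₊) + (z - ⌊z⌋₊) * In μ (2 * ⌊z⌋₊ + 2)

section
variable {q : ℝ} {μ : Measure ℝ}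

lemma In_ge (hI : GI) (hB : Base q μ) (m : ℕ) :
    bb (m + 1) * (2 * (m : ℝ) + 1 + 2 * cc q) ≤ In μ (2 * (m + 2)) := (hI q μ hB).2 m

lemma In_two (hI : GI) (hB : Base q μ) : In μ 2 = cc q := (hI q μ hB).1

lemma bb_one : bb 1 = 1 / 2 := by
  unfold bb
  norm_num [Nat.centralBinom, Nat.choose]

lemma In_four (hI : GI) (hB : Base q μ) : cc q + 1 / 2 ≤ In μ 4 := by
  have h := In_ge hI hB 0
  rw [show 2 * (0 + 2) = 4 by norm_num, show 0 + 1 = 1 by norm_num, bb_one] at h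
  push_cast at h
  linarith

lemma Iz_large (hI : GI) (hW : GW) (hB : Base q μ) {z : ℝ} (hz : 2 ≤ z) :
    (cc q / √2 + 0.00377) * √(2 * z) ≤ Iz μ z := by
  have hc := cc_le hB.q_ge
  have hc1 := cc_gt hB.q_ge
  obtain ⟨m, hm⟩ : ∃ m : ℕ, ⌊z⌋₊ = m + 2 := by
    have : 2 ≤ ⌊z⌋₊ := Nat.le_floor (by exact_mod_cast hz)
    exact ⟨⌊z⌋₊ - 2, by omega⟩
  have hf1 : ((m : ℝ) + 2) ≤ z := by
    have := Nat.floor_le (show (0 : ℝ) ≤ z by linarith)
    rw [hm] at this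
    push_cast at this
    exact this
  have hf2 : z < (m : ℝ) + 2 + 1 := by
    have := Nat.lt_floor_add_one z
    rw [hm] at this
    push_cast at this
    exact this
  have w := hW (cc q) hc m
  have i1 := In_ge hI hB m
  have i2 := In_ge hI hB (m + 1)
  unfold Iz
  rw [hm]
  have e2 : 2 * (m + 2) + 2 = 2 * (m + 1 + 2) := by ring
  rw [e2]
  push_cast at i2 ⊢
  set θ := z - ((m : ℝ) + 2) with hθ
  have hθ0 : 0 ≤ θ := by linarith
  have hθ1 : θ ≤ 1 := by linarith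
  set M := √(2 * ((m : ℝ) + 2) + 1) with hM
  have hM0 : 0 < M := Real.sqrt_pos.2 (by positivity)
  have hMM : M * M = 2 * ((m : ℝ) + 2) + 1 := Real.mul_self_sqrt (by positivity)
  have w1 := w.1
  have w2 := w.2
  have hM2 : √(2 * ((m : ℝ) + 3) - 1) = M := by rw [hM]; congr 1; ring
  rw [hM2] at w2
  rw [show m + 2 = m + 1 + 1 by ring] at w2
  set K := cc q / √2 + 0.00377 with hK
  have hK0 : 0 < K := by have := t_pos hc1; positivity
  have hs : √(2 * z) * √(2 * z) = 2 * z := Real.mul_self_sqrt (by linarith)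
  have key : √(2 * z) ≤ (1 - θ) * ((4 * ((m : ℝ) + 2) + 1) / (2 * M)) +
      θ * ((4 * ((m : ℝ) + 3) - 1) / (2 * M)) := by
    have : (1 - θ) * ((4 * ((m : ℝ) + 2) + 1) / (2 * M)) +
      θ * ((4 * ((m : ℝ) + 3) - 1) / (2 * M)) = (2 * z + M * M) / (2 * M) := by
      rw [hMM]
      field_simp
      rw [hθ]
      ring
    rw [this, le_div_iff₀ (by positivity)]
    nlinarith [sq_nonneg (√(2 * z) - M)]
  calc K * √(2 * z) ≤ K * ((1 - θ) * ((4 * ((m : ℝ) + 2) + 1) / (2 * M)) +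
      θ * ((4 * ((m : ℝ) + 3) - 1) / (2 * M))) := mul_le_mul_of_nonneg_left key hK0.le
    _ = (1 - θ) * (K * ((4 * ((m : ℝ) + 2) + 1) / (2 * M))) +
      θ * (K * ((4 * ((m : ℝ) + 3) - 1) / (2 * M))) := by ring
    _ ≤ (1 - θ) * In μ (2 * (m + 2)) + θ * In μ (2 * (m + 1 + 2)) := by
      apply add_le_add
      · exact mul_le_mul_of_nonneg_left (w1.trans i1) (by linarith)
      · exact mul_le_mul_of_nonneg_left (w2.trans i2) hθ0

lemma Iz_small (hI : GI) (hB : Base q μ) {z : ℝ} (hz : 1 ≤ z) (hz2 : z ≤ 2) :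
    cc q - 1 / 2 + z / 2 ≤ Iz μ z := by
  have h4 := In_four hI hB
  have h2 := In_two hI hB
  rcases hz2.eq_or_lt with h | h
  · subst h
    have : ⌊(2 : ℝ)⌋₊ = 2 := by norm_num
    unfold Iz
    rw [this]
    norm_num
    linarith
  · have : ⌊z⌋₊ = 1 := by
      rw [Nat.floor_eq_iff (by linarith)]
      norm_num
      exact ⟨hz, by linarith⟩
    unfold Iz
    rw [this]
    norm_num
    rw [h2]
    nlinarith

lemma Iz_all (hI : GI) (hW : GW) (hB : Base q μ) {z : ℝ} (hz : 1 ≤ z) :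
    √(cc q - 1 / 2) * √(2 * z) ≤ Iz μ z := by
  have hc1 := cc_gt hB.q_ge
  have hs : √(2 * z) * √(2 * z) = 2 * z := Real.mul_self_sqrt (by linarith)
  have hs0 := Real.sqrt_nonneg (2 * z)
  have hk : √(cc q - 1 / 2) * √(cc q - 1 / 2) = cc q - 1 / 2 :=
    Real.mul_self_sqrt (by linarith)
  rcases le_total z 2 with h | h
  · have := Iz_small hI hB hz h
    nlinarith [sq_nonneg (√(2 * z) / 2 - √(cc q - 1 / 2))]
  · have := Iz_large hI hW hB h
    refine le_trans (mul_le_mul_of_nonneg_right ?_ hs0) this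
    have h1 : √(cc q - 1 / 2) ≤ cc q / √2 := by
      rw [Real.sqrt_le_left (t_pos hc1).le, t_sq]
      nlinarith [sq_nonneg (cc q - 1)]
    linarith

/-! ### AM-GM consequences -/

lemma ph_zero [IsProbabilityMeasure μ] : ph μ 0 = 1 := by simp [ph]

lemma ph_neg (t : ℝ) : ph μ (-t) = ph μ t := by
  unfold ph
  simp only [neg_mul, Real.cos_neg]

lemma ph_abs (u t : ℝ) : ph μ (|u| * t) = ph μ (u * t) := by
  rcases abs_cases u with h | h
  · rw [h.1]
  · rw [h.1, neg_mul, ph_neg]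

lemma Lf_ph_pow [IsProbabilityMeasure μ] {u : ℝ} (hu : 0 ≤ u) (n : ℕ) :
    Lf (fun t => ph μ (u * t) ^ n) = u * In μ n :=
  Lf_scale (fun t => ph μ t ^ n) hu (by simp [ph_zero])

lemma amgm_one (hA : GAG) (hB : Base q μ) {ι : Type} (S : Finset ι) (u : ι → ℝ)
    (hu : ∀ i ∈ S, 0 < u i) (h1 : ∑ i ∈ S, u i ^ 2 = 1) (h2 : ∀ i ∈ S, u i ^ 2 ≤ 1 / 2) :
    ∑ i ∈ S, u i ^ 2 * (u i * Iz μ (1 / (2 * u i ^ 2))) ≤ Lf (fun t => ∏ i ∈ S, ph μ (u i * t)) := by
  have := hB.prob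
  obtain ⟨ν, hν⟩ := exists_isLaw_prod hB.int S u
  have h := hA μ hB.prob hB.int ι S u (fun i => u i ^ 2) (fun _ => 1) (fun _ => 1)
    measurable_const (fun _ => by simp) (fun _ => le_rfl) ok_one
    (by simpa using hν.ok) hu (fun i hi => ⟨by have := hu i hi; positivity, h2 i hi⟩) h1
  simp only [one_mul] at h
  refine le_trans (le_of_eq ?_) h
  refine Finset.sum_congr rfl fun i hi => ?_
  rw [Lf_ph_pow (hu i hi).le, Lf_ph_pow (hu i hi).le]
  unfold Iz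
  ring

lemma amgm_cos (hA : GAG) (hT : GT) (hI : GI) (hW : GW) (hB : Base q μ) {ι : Type}
    (S : Finset ι) (u : ι → ℝ) {a v : ℝ} (ha : 0 ≤ a) (hv : 0 < v)
    (hu : ∀ i ∈ S, 0 < u i) (h1 : ∑ i ∈ S, u i ^ 2 = v ^ 2) (h2 : ∀ i ∈ S, u i ^ 2 ≤ v ^ 2 / 2) :
    1225 / 2048 * a + 11025 / 16384 * (v * √(cc q - 1 / 2)) ≤
      Lf (fun t => Real.cos (a * t) * ∏ i ∈ S, ph μ (u i * t)) := by
  have := hB.prob
  obtain ⟨ν, hν⟩ := exists_isLaw_prod hB.int S u
  have hlam : ∀ i ∈ S, 0 < u i ^ 2 / v ^ 2 ∧ u i ^ 2 / v ^ 2 ≤ 1 / 2 := by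
    intro i hi
    have h3 := hu i hi
    refine ⟨by positivity, ?_⟩
    rw [div_le_iff₀ (by positivity)]
    linarith [h2 i hi]
  have hsum : ∑ i ∈ S, u i ^ 2 / v ^ 2 = 1 := by
    rw [← Finset.sum_div, h1]
    field_simp
  have hTm : Measurable (fun t => TT (a * t)) := by unfold TT; fun_prop
  have h := hA μ hB.prob hB.int ι S u (fun i => u i ^ 2 / v ^ 2) (fun t => Real.cos (a * t))
    (fun t => TT (a * t)) hTm (fun t => (hT.1 _).1) (fun t => (hT.1 _).2) (ok_cos a)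
    (hν.main a).1 hu hlam hsum
  refine le_trans ?_ h
  have hterm : ∀ i ∈ S, ∀ n : ℕ, 1225 / 2048 * a + 11025 / 16384 * (u i * In μ n) ≤
      Lf (fun t => TT (a * t) * ph μ (u i * t) ^ n) := by
    intro i hi n
    obtain ⟨ν', hν'⟩ := (isLaw_ph hB.int (u i)).pow n
    have := (hT.2 _ ν' hν' a ha).2
    rwa [Lf_ph_pow (hu i hi).le] at this
  have hle : ∀ i ∈ S, u i ^ 2 / v ^ 2 * (1225 / 2048 * a + 11025 / 16384 * (v * √(cc q - 1 / 2))) ≤
      u i ^ 2 / v ^ 2 *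
    ((1 - (1 / (2 * (u i ^ 2 / v ^ 2)) - ⌊1 / (2 * (u i ^ 2 / v ^ 2))⌋₊)) *
        Lf (fun t => TT (a * t) * ph μ (u i * t) ^ (2 * ⌊1 / (2 * (u i ^ 2 / v ^ 2))⌋₊)) +
      (1 / (2 * (u i ^ 2 / v ^ 2)) - ⌊1 / (2 * (u i ^ 2 / v ^ 2))⌋₊) *
        Lf (fun t => TT (a * t) * ph μ (u i * t) ^ (2 * ⌊1 / (2 * (u i ^ 2 / v ^ 2))⌋₊ + 2))) := by
    intro i hi
    have h3 := hu i hi
    have hl := hlam i hi
    apply mul_le_mul_of_nonneg_left _ hl.1.le
    set z := 1 / (2 * (u i ^ 2 / v ^ 2)) with hz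
    have hz1 : 1 ≤ z := by
      rw [hz, le_div_iff₀ (by positivity)]
      linarith [hl.2]
    have hf1 := Nat.floor_le (show (0 : ℝ) ≤ z by linarith)
    have hf2 := Nat.lt_floor_add_one z
    have e := Iz_all hI hW hB hz1
    have hz3 : √(2 * z) = v / u i := by
      rw [hz, Real.sqrt_eq_iff_mul_self_eq (by positivity) (by positivity)]
      field_simp
    have t1 := hterm i hi (2 * ⌊z⌋₊)
    have t2 := hterm i hi (2 * ⌊z⌋₊ + 2)
    have e2 : v * √(cc q - 1 / 2) ≤ u i * Iz μ z := by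
      calc v * √(cc q - 1 / 2) = u i * (√(cc q - 1 / 2) * √(2 * z)) := by
            rw [hz3]; field_simp
        _ ≤ _ := mul_le_mul_of_nonneg_left e h3.le
    calc 1225 / 2048 * a + 11025 / 16384 * (v * √(cc q - 1 / 2))
        ≤ 1225 / 2048 * a + 11025 / 16384 * (u i * Iz μ z) := by linarith
      _ = (1 - (z - ⌊z⌋₊)) * (1225 / 2048 * a + 11025 / 16384 * (u i * In μ (2 * ⌊z⌋₊))) +
          (z - ⌊z⌋₊) * (1225 / 2048 * a + 11025 / 16384 * (u i * In μ (2 * ⌊z⌋₊ + 2))) := by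
            unfold Iz; ring
      _ ≤ _ := add_le_add (mul_le_mul_of_nonneg_left t1 (by linarith))
          (mul_le_mul_of_nonneg_left t2 (by linarith))
  calc _ = ∑ i ∈ S, u i ^ 2 / v ^ 2 *
        (1225 / 2048 * a + 11025 / 16384 * (v * √(cc q - 1 / 2))) := by
        rw [← Finset.sum_mul, hsum, one_mul]
    _ ≤ _ := Finset.sum_le_sum hle

/-- Jensen. -/
lemma jensen (hB : Base q μ) {h : ℝ → ℝ} {ν : Measure ℝ} (H : IsLaw h ν) {a : ℝ} (ha : 0 ≤ a) :
    Lf (fun t => Real.cos (a * t) * h t) ≤ Lf (fun t => ph μ (a * t) * h t) := by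
  have := hB.prob
  have := H.prob
  have i1 : Integrable (fun p : ℝ × ℝ => |a * p.1|) (μ.prod ν) :=
    ((hB.int.comp_fst ν).const_mul a).abs
  have i2 : Integrable (fun p : ℝ × ℝ => |p.2|) (μ.prod ν) := (H.int.comp_snd μ).abs
  have i3 : Integrable (fun p : ℝ × ℝ => max |a * p.1| |p.2|) (μ.prod ν) := i1.sup i2
  have hm := mix (μ.prod ν) (fun p t => Real.cos (a * p.1 * t) * Real.cos (p.2 * t))
    (by unfold Function.uncurry; fun_prop) (fun p => ok_cos_cos _ _) (by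
      refine i3.congr (Filter.Eventually.of_forall fun p => ?_)
      exact (Lf_cos_cos _ _).symm)
  have e : (fun t => ph μ (a * t) * h t) =
      fun t => ∫ p : ℝ × ℝ, Real.cos (a * p.1 * t) * Real.cos (p.2 * t) ∂(μ.prod ν) := by
    ext t
    rw [H.eq t, ph, ← integral_prod_mul]
    refine integral_congr_ae (Filter.Eventually.of_forall fun p => ?_)
    simp only
    ring_nf
  rw [e, hm.2, (H.main a).2]
  have e3 : ∀ p : ℝ × ℝ, Lf (fun t => Real.cos (a * p.1 * t) * Real.cos (p.2 * t)) =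
      max |a * p.1| |p.2| := fun p => Lf_cos_cos _ _
  simp_rw [e3]
  rw [integral_prod_symm _ i3]
  refine integral_mono (integrable_max_abs H.int a) i3.integral_prod_right (fun x => ?_)
  have i4 : Integrable (fun y : ℝ => max |a * y| |x|) μ :=
    ((hB.int.const_mul a).abs).sup (integrable_const _)
  apply max_le
  · rw [abs_of_nonneg ha]
    calc a = ∫ y, a * y ∂μ := by rw [integral_const_mul, hB.mean, mul_one]
      _ ≤ _ := integral_mono (hB.int.const_mul a) i4 (fun y => (le_abs_self _).trans (le_max_left _ _))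
  · calc |x| = ∫ _y, |x| ∂μ := by simp
      _ ≤ _ := integral_mono (integrable_const _) i4 (fun y => le_max_right _ _)

end

end Pool.Agent.Helper28.NO
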