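import Pool.Agent.Helper28.NO.Defs

/-!
# Toolkit for the functional `Lf`
-/

namespace Pool.Agent.Helper28.NO

open MeasureTheory Set
open Pool.Agent.Helper13.Proj (c0 c0_pos integral_scaled integrableOn_scaled)

lemma ok_cos (a : ℝ) : Ok (fun t => Real.cos (a * t)) where
  meas := by fun_prop
  abs_le := fun t => Real.abs_cos_le_one _
  int := by
    refine (integrableOn_scaled a).congr_fun (fun t _ => ?_) measurableSet_Ioi
    simp only [mul_comm t a]

lemma Lf_cos (a : ℝ) : Lf (fun t => Real.cos (a * t)) = |a| := by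
  unfold Lf
  have h := integral_scaled a
  simp only [mul_comm _ a] at h
  rw [h]
  field_simp [c0_pos.ne']

/-- affine combination of two functions -/
lemma ok_aff {h₁ h₂ : ℝ → ℝ} (H₁ : Ok h₁) (H₂ : Ok h₂) {α β : ℝ} (h : α + β = 1)
    (hb : ∀ t, |α * h₁ t + β * h₂ t| ≤ 1) : Ok (fun t => α * h₁ t + β * h₂ t) where
  meas := (H₁.meas.const_mul α).add (H₂.meas.const_mul β)
  abs_le := hb
  int := by
    have h3 : IntegrableOn (fun t => α * ((1 - h₁ t) / t ^ 2) + β * ((1 - h₂ t) / t ^ 2))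
        (Ioi 0) := (H₁.int.const_mul α).add (H₂.int.const_mul β)
    refine h3.congr_fun (fun t _ => ?_) measurableSet_Ioi
    show α * ((1 - h₁ t) / t ^ 2) + β * ((1 - h₂ t) / t ^ 2) = _
    rw [← mul_div_assoc, ← mul_div_assoc, ← add_div]
    congr 1
    linear_combination h

lemma Lf_aff {h₁ h₂ : ℝ → ℝ} (H₁ : Ok h₁) (H₂ : Ok h₂) {α β : ℝ} (h : α + β = 1) :
    Lf (fun t => α * h₁ t + β * h₂ t) = α * Lf h₁ + β * Lf h₂ := by
  unfold Lf
  rw [← mul_div_assoc, ← mul_div_assoc, ← add_div, ← integral_const_mul, ← integral_const_mul,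
    ← integral_add (H₁.int.const_mul α) (H₂.int.const_mul β)]
  congr 1
  refine setIntegral_congr_fun measurableSet_Ioi (fun t _ => ?_)
  simp only
  rw [← mul_div_assoc, ← mul_div_assoc, ← add_div]
  congr 1
  linear_combination (-1 : ℝ) * h

/-- general affine combination -/
lemma Lf_sum {ι : Type*} (S : Finset ι) (α : ι → ℝ) (h : ι → ℝ → ℝ) (H : ∀ i ∈ S, Ok (h i))
    (hα : ∑ i ∈ S, α i = 1) :
    Lf (fun t => ∑ i ∈ S, α i * h i t) = ∑ i ∈ S, α i * Lf (h i) := by
  unfold Lf
  simp_rw [← mul_div_assoc]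
  rw [← Finset.sum_div]
  simp_rw [← integral_const_mul]
  rw [← integral_finsetSum S (fun i hi => (H i hi).int.const_mul (α i))]
  congr 1
  refine setIntegral_congr_fun measurableSet_Ioi (fun t _ => ?_)
  show _ = ∑ i ∈ S, α i * ((1 - h i t) / t ^ 2)
  simp_rw [← mul_div_assoc]
  rw [← Finset.sum_div]
  congr 1
  simp_rw [mul_sub, mul_one]
  rw [Finset.sum_sub_distrib, hα]

lemma int_sum {ι : Type*} (S : Finset ι) (α : ι → ℝ) (h : ι → ℝ → ℝ) (H : ∀ i ∈ S, Ok (h i))
    (hα : ∑ i ∈ S, α i = 1) :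
    IntegrableOn (fun t => (1 - ∑ i ∈ S, α i * h i t) / t ^ 2) (Ioi 0) := by
  have := integrable_finsetSum (μ := volume.restrict (Ioi (0 : ℝ))) S
    (f := fun i t => α i * ((1 - h i t) / t ^ 2)) (fun i hi => (H i hi).int.const_mul (α i))
  refine IntegrableOn.congr_fun this (fun t _ => ?_) measurableSet_Ioi
  show ∑ i ∈ S, α i * ((1 - h i t) / t ^ 2) = _
  simp_rw [← mul_div_assoc]
  rw [← Finset.sum_div]
  congr 1
  simp_rw [mul_sub, mul_one]
  rw [Finset.sum_sub_distrib, hα]

/-- monotonicity: only integrability of the two functions is used -/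
lemma Lf_anti' {h₁ h₂ : ℝ → ℝ}
    (i₁ : IntegrableOn (fun t => (1 - h₁ t) / t ^ 2) (Ioi 0))
    (i₂ : IntegrableOn (fun t => (1 - h₂ t) / t ^ 2) (Ioi 0))
    (h : ∀ t, 0 < t → h₁ t ≤ h₂ t) : Lf h₂ ≤ Lf h₁ := by
  unfold Lf
  apply div_le_div_of_nonneg_right _ c0_pos.le
  refine setIntegral_mono_on i₂ i₁ measurableSet_Ioi (fun t ht => ?_)
  have := h t ht
  apply div_le_div_of_nonneg_right _ (sq_nonneg t)
  linarith

lemma Lf_anti {h₁ h₂ : ℝ → ℝ} (H₁ : Ok h₁) (H₂ : Ok h₂) (h : ∀ t, 0 < t → h₁ t ≤ h₂ t) :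
    Lf h₂ ≤ Lf h₁ := Lf_anti' H₁.int H₂.int h

/-- domination -/
lemma int_of_le {h₁ h₂ : ℝ → ℝ} (i₁ : IntegrableOn (fun t => (1 - h₁ t) / t ^ 2) (Ioi 0))
    (m₂ : Measurable h₂) (h : ∀ t, 0 < t → h₁ t ≤ h₂ t) (h2 : ∀ t, 0 < t → h₂ t ≤ 1) :
    IntegrableOn (fun t => (1 - h₂ t) / t ^ 2) (Ioi 0) := by
  refine Integrable.mono' i₁ ?_ ?_
  · exact ((measurable_const.sub m₂).div (measurable_id.pow_const 2)).aestronglyMeasurable
  · refine (ae_restrict_iff' measurableSet_Ioi).2 (Filter.Eventually.of_forall fun t ht => ?_)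
    have a := h t ht
    have b := h2 t ht
    rw [Real.norm_of_nonneg (div_nonneg (by linarith) (sq_nonneg t))]
    apply div_le_div_of_nonneg_right _ (sq_nonneg t)
    linarith

lemma ok_of_le {h₁ h₂ : ℝ → ℝ} (H₁ : Ok h₁) (m₂ : Measurable h₂) (h : ∀ t, h₁ t ≤ h₂ t)
    (h2 : ∀ t, h₂ t ≤ 1) : Ok h₂ where
  meas := m₂
  abs_le := fun t => abs_le.2 ⟨(abs_le.1 (H₁.abs_le t)).1.trans (h t), h2 t⟩
  int := int_of_le H₁.int m₂ (fun t _ => h t) (fun t _ => h2 t)

lemma Lf_one : Lf (fun _ => 1) = 0 := by simp [Lf]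

lemma ok_one : Ok (fun _ => (1 : ℝ)) := ⟨measurable_const, fun _ => by simp, by simp⟩

lemma Lf_scale (h : ℝ → ℝ) {β : ℝ} (hβ : 0 ≤ β) (h0 : h 0 = 1) :
    Lf (fun t => h (β * t)) = β * Lf h := by
  rcases hβ.eq_or_lt with h' | h'
  · rw [← h']
    simp [Lf, h0]
  · unfold Lf
    have e := integral_comp_mul_left_Ioi (fun t => (1 - h t) / t ^ 2) 0 h'
    rw [mul_zero] at e
    rw [mul_div_assoc', ]
    congr 1
    have e2 : ∫ t in Ioi (0 : ℝ), (1 - h (β * t)) / t ^ 2 =
        ∫ t in Ioi (0 : ℝ), β ^ 2 * ((1 - h (β * t)) / (β * t) ^ 2) := by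
      refine setIntegral_congr_fun measurableSet_Ioi (fun t ht => ?_)
      have ht' : (t : ℝ) ≠ 0 := (mem_Ioi.1 ht).ne'
      field_simp
    rw [e2, integral_const_mul, e, smul_eq_mul]
    field_simp

lemma ok_scale {h : ℝ → ℝ} (H : Ok h) {β : ℝ} (hβ : 0 < β) : Ok (fun t => h (β * t)) where
  meas := H.meas.comp (measurable_const.mul measurable_id)
  abs_le := fun t => H.abs_le _
  int := by
    have h := (integrableOn_Ioi_comp_mul_left_iff (fun t => (1 - h t) / t ^ 2) 0 hβ).2
      (by simpa using H.int)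
    refine IntegrableOn.congr_fun (h.const_mul (β ^ 2)) (fun t ht => ?_) measurableSet_Ioi
    have ht' : (t : ℝ) ≠ 0 := (mem_Ioi.1 ht).ne'
    field_simp

/-- Tonelli for mixtures. -/
lemma mix {Ω : Type*} [MeasurableSpace Ω] (P : Measure Ω) [IsProbabilityMeasure P]
    (k : Ω → ℝ → ℝ) (hk : Measurable (Function.uncurry k)) (hok : ∀ ω, Ok (k ω))
    (hL : Integrable (fun ω => Lf (k ω)) P) :
    Ok (fun t => ∫ ω, k ω t ∂P) ∧ Lf (fun t => ∫ ω, k ω t ∂P) = ∫ ω, Lf (k ω) ∂P := by
  have hki : ∀ t, Integrable (fun ω => k ω t) P := by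
    intro t
    refine Integrable.mono' (integrable_const (1 : ℝ)) ?_ ?_
    · exact (hk.comp (measurable_id.prodMk measurable_const)).aestronglyMeasurable
    · exact Filter.Eventually.of_forall fun ω => by
        rw [Real.norm_eq_abs]; exact (hok ω).abs_le t
  have hmeas : Measurable (Function.uncurry fun (ω : Ω) (t : ℝ) => (1 - k ω t) / t ^ 2) := by
    exact (measurable_const.sub hk).div (measurable_snd.pow_const 2)
  have hint : Integrable (Function.uncurry fun (ω : Ω) (t : ℝ) => (1 - k ω t) / t ^ 2)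
      (P.prod (volume.restrict (Ioi 0))) := by
    rw [integrable_prod_iff hmeas.aestronglyMeasurable]
    refine ⟨Filter.Eventually.of_forall fun ω => (hok ω).int, ?_⟩
    refine (hL.mul_const c0).congr (Filter.Eventually.of_forall fun ω => ?_)
    simp only [Function.uncurry]
    rw [Lf, div_mul_cancel₀ _ c0_pos.ne']
    refine setIntegral_congr_fun measurableSet_Ioi (fun t _ => ?_)
    rw [Real.norm_of_nonneg]
    exact div_nonneg (by linarith [(abs_le.1 ((hok ω).abs_le t)).2]) (sq_nonneg t)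
  have hpt : ∀ t, (1 - ∫ ω, k ω t ∂P) / t ^ 2 = ∫ ω, (1 - k ω t) / t ^ 2 ∂P := by
    intro t
    rw [integral_div, integral_sub (integrable_const _) (hki t)]
    simp
  refine ⟨⟨?_, ?_, ?_⟩, ?_⟩
  · have : StronglyMeasurable (Function.uncurry fun (t : ℝ) (ω : Ω) => k ω t) :=
      (hk.comp measurable_swap).stronglyMeasurable
    exact this.integral_prod_right.measurable
  · intro t
    rw [← Real.norm_eq_abs]
    refine (norm_integral_le_integral_norm _).trans ?_
    have : ∫ ω, ‖k ω t‖ ∂P ≤ ∫ _ω, (1 : ℝ) ∂P := by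
      refine integral_mono (hki t).norm (integrable_const _) (fun ω => ?_)
      rw [Real.norm_eq_abs]; exact (hok ω).abs_le t
    simpa using this
  · refine IntegrableOn.congr_fun (hint.integral_prod_right) (fun t _ => ?_) measurableSet_Ioi
    simp only [Function.uncurry]
    exact (hpt t).symm
  · rw [Lf]
    simp_rw [hpt]
    rw [← integral_integral_swap hint, ← integral_div]
    rfl

lemma max_abs_eq (a b : ℝ) : max |a| |b| = (|a + b| + |a - b|) / 2 := by
  rcases abs_cases a with ha | ha <;> rcases abs_cases b with hb | hb <;>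
    rcases abs_cases (a + b) with hc | hc <;> rcases abs_cases (a - b) with hd | hd <;>
    rcases max_cases |a| |b| with he | he <;> linarith

lemma ok_cos_cos (a b : ℝ) : Ok (fun t => Real.cos (a * t) * Real.cos (b * t)) := by
  have h := ok_aff (ok_cos (a + b)) (ok_cos (a - b)) (α := 1 / 2) (β := 1 / 2) (by norm_num)
    (fun t => ?_)
  · refine ⟨by fun_prop, fun t => ?_, ?_⟩
    · rw [abs_mul]
      exact mul_le_one₀ (Real.abs_cos_le_one _) (abs_nonneg _) (Real.abs_cos_le_one _)
    · refine h.int.congr_fun (fun t _ => ?_) measurableSet_Ioi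
      simp only
      rw [add_mul, sub_mul, Real.cos_add, Real.cos_sub]
      ring_nf
  · have h1 := Real.abs_cos_le_one ((a + b) * t)
    have h2 := Real.abs_cos_le_one ((a - b) * t)
    rw [abs_le] at h1 h2 ⊢
    constructor <;> linarith [h1.1, h1.2, h2.1, h2.2]

lemma Lf_cos_cos (a b : ℝ) : Lf (fun t => Real.cos (a * t) * Real.cos (b * t)) = max |a| |b| := by
  have h := Lf_aff (ok_cos (a + b)) (ok_cos (a - b)) (α := 1 / 2) (β := 1 / 2) (by norm_num)
  rw [Lf_cos, Lf_cos] at h
  rw [max_abs_eq, show (|a + b| + |a - b|) / 2 = 1 / 2 * |a + b| + 1 / 2 * |a - b| by ring, ← h]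
  congr 1
  ext t
  rw [add_mul, sub_mul, Real.cos_add, Real.cos_sub]
  ring

/-! ### Laws -/

lemma integrable_max_abs {ν : Measure ℝ} [IsProbabilityMeasure ν] (h : Integrable (fun x : ℝ => x) ν)
    (a : ℝ) : Integrable (fun x : ℝ => max |a| |x|) ν :=
  (integrable_const _).sup h.abs

/-- The fundamental formula: `E|aε + X| = E max(|a|,|X|)`. -/
lemma IsLaw.main {h : ℝ → ℝ} {ν : Measure ℝ} (H : IsLaw h ν) (a : ℝ) :
    Ok (fun t => Real.cos (a * t) * h t) ∧
      Lf (fun t => Real.cos (a * t) * h t) = ∫ x, max |a| |x| ∂ν := by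
  have := H.prob
  have hm := mix ν (fun x t => Real.cos (a * t) * Real.cos (x * t)) (by unfold Function.uncurry; fun_prop)
    (fun x => ok_cos_cos a x) (by
      refine (integrable_max_abs H.int a).congr (Filter.Eventually.of_forall fun x => ?_)
      exact (Lf_cos_cos a x).symm)
  have e : (fun t => Real.cos (a * t) * h t) =
      fun t => ∫ x, Real.cos (a * t) * Real.cos (x * t) ∂ν := by
    ext t
    rw [integral_const_mul, H.eq t]
    simp_rw [mul_comm t]
  rw [e]
  refine ⟨hm.1, ?_⟩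
  rw [hm.2]
  exact integral_congr_ae (Filter.Eventually.of_forall fun x => Lf_cos_cos a x)

lemma IsLaw.ok {h : ℝ → ℝ} {ν : Measure ℝ} (H : IsLaw h ν) : Ok h := by
  have := (H.main 0).1
  simpa using this

lemma IsLaw.Lf_eq {h : ℝ → ℝ} {ν : Measure ℝ} (H : IsLaw h ν) : Lf h = ∫ x, |x| ∂ν := by
  have := (H.main 0).2
  simpa using this

lemma IsLaw.le_Lf_cos {h : ℝ → ℝ} {ν : Measure ℝ} (H : IsLaw h ν) (a : ℝ) :
    max |a| (Lf h) ≤ Lf (fun t => Real.cos (a * t) * h t) := by
  have := H.prob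
  rw [(H.main a).2, H.Lf_eq]
  apply max_le
  · calc |a| = ∫ _x, |a| ∂ν := by simp
      _ ≤ _ := integral_mono (integrable_const _) (integrable_max_abs H.int a)
        (fun x => le_max_left _ _)
  · exact integral_mono H.int.abs (integrable_max_abs H.int a) (fun x => le_max_right _ _)

lemma isLaw_cos (a : ℝ) : IsLaw (fun t => Real.cos (a * t)) (Measure.dirac a) where
  prob := inferInstance
  int := integrable_dirac (by simp)
  eq := fun t => by rw [integral_dirac, mul_comm]

lemma isLaw_one : IsLaw (fun _ => (1 : ℝ)) (Measure.dirac 0) where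
  prob := inferInstance
  int := integrable_dirac (by simp)
  eq := fun t => by rw [integral_dirac]; simp

lemma isLaw_ph {μ : Measure ℝ} [IsProbabilityMeasure μ] (h : Integrable (fun y : ℝ => y) μ)
    (u : ℝ) : IsLaw (fun t => ph μ (u * t)) (μ.map (fun y => u * y)) where
  prob := Measure.isProbabilityMeasure_map (by fun_prop)
  int := by
    rw [integrable_map_measure (by fun_prop) (by fun_prop)]
    exact h.const_mul u
  eq := fun t => by
    rw [integral_map (by fun_prop) (by fun_prop), ph]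
    refine integral_congr_ae (Filter.Eventually.of_forall fun y => ?_)
    simp only
    ring_nf

lemma IsLaw.mul {h₁ h₂ : ℝ → ℝ} {ν₁ ν₂ : Measure ℝ} (H₁ : IsLaw h₁ ν₁) (H₂ : IsLaw h₂ ν₂) :
    ∃ ν, IsLaw (fun t => h₁ t * h₂ t) ν := by
  have := H₁.prob
  have := H₂.prob
  have i1 : Integrable (fun p : ℝ × ℝ => p.1) (ν₁.prod ν₂) := H₁.int.comp_fst ν₂
  have i2 : Integrable (fun p : ℝ × ℝ => p.2) (ν₁.prod ν₂) := H₂.int.comp_snd ν₁
  set A := (ν₁.prod ν₂).map (fun p : ℝ × ℝ => p.1 + p.2) with hA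
  set B := (ν₁.prod ν₂).map (fun p : ℝ × ℝ => p.1 - p.2) with hB
  have : IsProbabilityMeasure A := Measure.isProbabilityMeasure_map (by fun_prop)
  have : IsProbabilityMeasure B := Measure.isProbabilityMeasure_map (by fun_prop)
  have iA : Integrable (fun x : ℝ => x) A := by
    rw [hA, integrable_map_measure (by fun_prop) (by fun_prop)]
    exact i1.add i2
  have iB : Integrable (fun x : ℝ => x) B := by
    rw [hB, integrable_map_measure (by fun_prop) (by fun_prop)]
    exact i1.sub i2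
  refine ⟨(2⁻¹ : ENNReal) • A + (2⁻¹ : ENNReal) • B, ⟨⟨?_⟩, ?_, ?_⟩⟩
  · simp only [Measure.add_apply, Measure.smul_apply, measure_univ, smul_eq_mul, mul_one]
    exact ENNReal.inv_two_add_inv_two
  · exact (iA.smul_measure (by simp)).add_measure (iB.smul_measure (by simp))
  · intro t
    have bd : ∀ (ν : Measure ℝ) [IsProbabilityMeasure ν],
        Integrable (fun x => Real.cos (t * x)) ν := by
      intro ν _
      refine Integrable.mono' (integrable_const (1 : ℝ)) (by fun_prop) ?_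
      exact Filter.Eventually.of_forall fun x => by
        rw [Real.norm_eq_abs]; exact Real.abs_cos_le_one _
    have bd2 : ∀ (f : ℝ × ℝ → ℝ), Measurable f →
        Integrable (fun x => Real.cos (f x)) (ν₁.prod ν₂) := by
      intro f hf
      refine Integrable.mono' (integrable_const (1 : ℝ))
        (Real.measurable_cos.comp hf).aestronglyMeasurable ?_
      exact Filter.Eventually.of_forall fun x => by
        rw [Real.norm_eq_abs]; exact Real.abs_cos_le_one _
    rw [integral_add_measure ((bd A).smul_measure (by simp)) ((bd B).smul_measure (by simp)),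
      integral_smul_measure, integral_smul_measure, hA, hB,
      integral_map (by fun_prop) (by fun_prop), integral_map (by fun_prop) (by fun_prop),
      H₁.eq t, H₂.eq t, ← integral_prod_mul]
    simp only [ENNReal.toReal_inv, ENNReal.toReal_ofNat, smul_eq_mul]
    rw [← mul_add, ← integral_add (bd2 _ (by fun_prop)) (bd2 _ (by fun_prop)),
      ← integral_const_mul]
    refine integral_congr_ae (Filter.Eventually.of_forall fun p => ?_)
    simp only
    rw [mul_add t, mul_sub t, Real.cos_add, Real.cos_sub]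
    ring

lemma exists_isLaw_prod {μ : Measure ℝ} [IsProbabilityMeasure μ]
    (h : Integrable (fun y : ℝ => y) μ) {ι : Type*} (S : Finset ι) (u : ι → ℝ) :
    ∃ ν, IsLaw (fun t => ∏ i ∈ S, ph μ (u i * t)) ν := by
  classical
  induction S using Finset.induction_on with
  | empty => simpa using ⟨_, isLaw_one⟩
  | insert i S hi ih =>
    obtain ⟨ν, hν⟩ := ih
    simp_rw [Finset.prod_insert hi]
    exact (isLaw_ph h (u i)).mul hν

lemma IsLaw.pow {h : ℝ → ℝ} {ν : Measure ℝ} (H : IsLaw h ν) (n : ℕ) :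
    ∃ ν', IsLaw (fun t => h t ^ n) ν' := by
  induction n with
  | zero => simpa using ⟨_, isLaw_one⟩
  | succ n ih =>
    obtain ⟨ν', h'⟩ := ih
    simp_rw [pow_succ]
    exact h'.mul H

end Pool.Agent.Helper28.NO
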