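import Pool.Agent.Helper28.NO.Final

/-!
# Positivity and finiteness of the volumes; ENNReal form of the final theorem
-/

namespace Pool.Agent.Helper28.NO

open MeasureTheory Set
open Pool.Agent.Helper7.Proj (Bp projVol)

lemma Bp_compact {p : ℝ} (hp : 0 < p) (n : ℕ) : IsCompact (Bp p n) := by
  apply Metric.isCompact_of_isClosed_isBounded
  · unfold Bp
    apply isClosed_le _ continuous_const
    apply continuous_finsetSum
    intro i _
    have : Continuous fun x : EuclideanSpace ℝ (Fin n) => |x i| := by fun_prop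
    exact this.rpow_const (fun _ => Or.inr hp.le)
  · rw [isBounded_iff_forall_norm_le]
    refine ⟨√n, fun x hx => ?_⟩
    rw [EuclideanSpace.norm_eq]
    apply Real.sqrt_le_sqrt
    have h1 : ∀ i, ‖x i‖ ^ 2 ≤ 1 := by
      intro i
      have h2 : |x i| ^ p ≤ 1 :=
        (Finset.single_le_sum (f := fun i => |x i| ^ p)
          (fun j _ => Real.rpow_nonneg (abs_nonneg _) _) (Finset.mem_univ i)).trans hx
      have h3 : |x i| ≤ 1 := by
        by_contra h
        push Not at h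
        exact absurd (Real.one_lt_rpow h hp) (not_lt.2 h2)
      rw [Real.norm_eq_abs]
      exact pow_le_one₀ (abs_nonneg _) h3
    calc ∑ i, ‖x i‖ ^ 2 ≤ ∑ _i : Fin n, (1 : ℝ) := Finset.sum_le_sum fun i _ => h1 i
      _ = n := by simp

lemma proj_finite {p : ℝ} (hp : 0 < p) (n : ℕ) (u : EuclideanSpace ℝ (Fin n)) :
    (volume : Measure (ℝ ∙ u)ᗮ) ((ℝ ∙ u)ᗮ.orthogonalProjectionOnto '' Bp p n) ≠ ⊤ :=
  (((Bp_compact hp n).image (ContinuousLinearMap.continuous _)).measure_lt_top).ne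

lemma Bp_pos {p : ℝ} (hp : 0 < p) (n : ℕ) : 0 < volume (Bp p n) := by
  have ho : IsOpen {x : EuclideanSpace ℝ (Fin n) | ∑ i, |x i| ^ p < 1} := by
    apply isOpen_lt _ continuous_const
    apply continuous_finsetSum
    intro i _
    have : Continuous fun x : EuclideanSpace ℝ (Fin n) => |x i| := by fun_prop
    exact this.rpow_const (fun _ => Or.inr hp.le)
  have hne : {x : EuclideanSpace ℝ (Fin n) | ∑ i, |x i| ^ p < 1}.Nonempty :=
    ⟨0, by simp [Real.zero_rpow hp.ne']⟩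
  refine (ho.measure_pos volume hne).trans_le (measure_mono fun x hx => ?_)
  have h : ∑ i, |x i| ^ p < 1 := hx
  exact h.le

/-- ENNReal form -/
theorem finalENN (K : Pk2) {p : ℝ} (hp : 1 < p) (hp2 : p ≤ 6 / 5) (n : ℕ)
    (u : EuclideanSpace ℝ (Fin (n + 1))) (hu : ‖u‖ = 1) :
    ENNReal.ofReal ((2 : ℝ) ^ (1 / 2 - 1 / p)) *
        (volume : Measure (EuclideanSpace ℝ (Fin n))) (Bp p n) ≤
      (volume : Measure (ℝ ∙ u)ᗮ) ((ℝ ∙ u)ᗮ.orthogonalProjectionOnto '' Bp p (n + 1)) ∧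
    ((volume : Measure (ℝ ∙ u)ᗮ) ((ℝ ∙ u)ᗮ.orthogonalProjectionOnto '' Bp p (n + 1)) =
      ENNReal.ofReal ((2 : ℝ) ^ (1 / 2 - 1 / p)) *
        (volume : Measure (EuclideanSpace ℝ (Fin n))) (Bp p n) ↔
      ∃ i j, i ≠ j ∧ |u i| = 1 / √2 ∧ |u j| = 1 / √2) := by
  have hp0 : 0 < p := by linarith
  obtain ⟨h1, h2⟩ := final K hp hp2 n u hu
  have hfin := proj_finite hp0 (n + 1) u
  have hfin2 : (volume : Measure (EuclideanSpace ℝ (Fin n))) (Bp p n) ≠ ⊤ :=
    ((Bp_compact hp0 n).measure_lt_top).ne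
  have hpos : 0 < (volume : Measure (EuclideanSpace ℝ (Fin n))).real (Bp p n) :=
    ENNReal.toReal_pos (Bp_pos hp0 n).ne' hfin2
  have e1 : (volume : Measure (ℝ ∙ u)ᗮ) ((ℝ ∙ u)ᗮ.orthogonalProjectionOnto '' Bp p (n + 1)) =
      ENNReal.ofReal (projVol p (n + 1) u) := by
    unfold projVol
    rw [Measure.real, ENNReal.ofReal_toReal hfin]
  have e2 : ENNReal.ofReal ((2 : ℝ) ^ (1 / 2 - 1 / p)) *
        (volume : Measure (EuclideanSpace ℝ (Fin n))) (Bp p n) =
      ENNReal.ofReal ((2 : ℝ) ^ (1 / 2 - 1 / p) *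
        (volume : Measure (EuclideanSpace ℝ (Fin n))).real (Bp p n)) := by
    rw [ENNReal.ofReal_mul (by positivity), Measure.real, ENNReal.ofReal_toReal hfin2]
  rw [e1, e2, ← h2 hpos]
  refine ⟨ENNReal.ofReal_le_ofReal h1, ?_⟩
  rw [ENNReal.ofReal_eq_ofReal_iff (by unfold projVol; exact measureReal_nonneg) (by positivity)]

end Pool.Agent.Helper28.NO
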